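import Mathlib
import Pool.Agent.Lib.MP_15f9af_an.RK.Statement
import Pool.Agent.Lib.MP_15f9af_an.RK.Main

/-!
The Arveson–Douglas essential normality conjecture, in Douglas's form `p > dim(L)`, for all graded
submodules of `H²_d ⊗ K`.
-/

namespace Pool.Agent.Results.MP_15f9af_an.FullAnswer

open Pool.Agent.Lib.MP_15f9af_an.RK

universe u v

/-- Let `K` be a finite-dimensional Hilbert space, let `H` be the reproducing kernel Hilbert space
of `K`-valued functions on the unit ball of `ℂ^d` with kernel `(1 - ⟨z, w⟩)⁻¹ I_K` (that is,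
`H = H²_d ⊗ K`), let `M_1, …, M_d` be the multiplications by the coordinate functions on `H`, and
let `L` be a graded submodule of `H`.  Then the dimensions of the homogeneous parts
`H_n = (P_n ⊗ K) ⊖ L_n` of the quotient are given for large `n` by a polynomial `P`, and the
quotient is `p`-essentially normal, i.e. the commutators `[S_i, S_j^*]` of the compressions
`S_i = P_{L^⊥} M_i|_{L^⊥}` lie in the Schatten class `S^p`, for every real `p ≥ 1` with
`p > dim(L) = deg P + 1` (for every `p ≥ 1` if `P = 0`). -/
theorem result (d : ℕ) (K : Type u) [NormedAddCommGroup K] [InnerProductSpace ℂ K]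
    [FiniteDimensional ℂ K] [CompleteSpace K]
    (H : Type v) [NormedAddCommGroup H] [InnerProductSpace ℂ H] [CompleteSpace H]
    [RKHS ℂ H (UnitBall d) K] (hH : IsDruryArveson d K H)
    (M : Fin d → H →L[ℂ] H) (hM : IsCoordMul M)
    (L : Submodule ℂ H) (hL : IsGradedSubmodule M L) :
    ∃ P : Polynomial ℚ,
      (∀ᶠ n : ℕ in Filter.atTop, (hilb L n : ℚ) = P.eval (n : ℚ)) ∧
      ∀ p : ℝ, 1 ≤ p → (P ≠ 0 → (P.natDegree : ℝ) + 1 < p) → EssentiallyNormal M p L :=
  rk_full hH M hM L hL

end Pool.Agent.Results.MP_15f9af_an.FullAnswer
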